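import Mathlib.LinearAlgebra.Eigenspace.Triangularizable
import Mathlib.RingTheory.Artinian.Module
import Mathlib.RingTheory.Nilpotent.Basic
import Mathlib.Tactic.LinearCombination
import Mathlib.Tactic.Abel

/-!
# Primitive idempotents in commutative algebras over an algebraically closed field
-/

set_option autoImplicit false

namespace Pool.Agent.TH613.KB

theorem eq_zero_of_idem_of_nilp {Z : Type*} [CommRing Z] {h : Z} (hi : h * h = h)
    (hn : IsNilpotent h) : h = 0 := by
  obtain ⟨n, hn⟩ := hn
  have hp : ∀ m : ℕ, h ^ (m + 1) = h := by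
    intro m
    induction m with
    | zero => simp
    | succ m ih => rw [pow_succ, ih, hi]
  rw [← hp n, pow_succ, hn, zero_mul]

/-- `z e` is a scalar multiple of `e` up to nilpotent elements. -/
theorem scalar_add_nilp {k Z : Type*} [Field k] [IsAlgClosed k] [CommRing Z] [Algebra k Z]
    [Module.Finite k Z] (e : Z) (he : e * e = e) (h0 : e ≠ 0)
    (hp : ∀ f : Z, f * f = f → f * e = 0 ∨ f * e = e) (z : Z) :
    ∃ c : k, IsNilpotent (z * e - c • e) := by
  classical
  have hart : IsArtinianRing Z := IsArtinianRing.of_finite k Z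
  -- the submodule of `w` with `w * e = w`
  let P : Submodule k Z :=
    { carrier := {w | w * e = w}
      add_mem' := by
        intro a b ha hb
        simp only [Set.mem_ofPred_eq] at *
        rw [add_mul, ha, hb]
      zero_mem' := by simp
      smul_mem' := by
        intro c x hx
        simp only [Set.mem_ofPred_eq] at *
        rw [smul_mul_assoc, hx] }
  have hPe : e ∈ P := he
  have : Nontrivial P := ⟨⟨⟨e, hPe⟩, 0, fun h => h0 (by simpa using congrArg Subtype.val h)⟩⟩
  let φ : Module.End k P :=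
    { toFun := fun w => ⟨z * w.1, by
        show z * w.1 * e = z * w.1
        rw [mul_assoc]; congr 1; exact w.2⟩
      map_add' := by intro a b; ext; simp [mul_add]
      map_smul' := by intro c a; ext; simp }
  obtain ⟨c, hc⟩ := Module.End.exists_eigenvalue φ
  obtain ⟨v, hv⟩ := hc.exists_hasEigenvector
  have hv1 : z * v.1 = c • v.1 := by
    have := hv.apply_eq_smul
    exact congrArg Subtype.val this
  have hv0 : v.1 ≠ 0 := fun h => hv.2 (Subtype.ext h)
  refine ⟨c, ?_⟩
  set y : Z := z * e - c • e with hy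
  have hye : y * e = y := by
    rw [hy, sub_mul, mul_assoc, he, smul_mul_assoc, he]
  obtain ⟨n, s, hs⟩ := IsArtinian.exists_pow_succ_smul_dvd (M := Z) y 1 (R := Z)
  have hs1 : y ^ (n + 1) * s = y ^ n := by simpa using hs
  set m := n + 1 with hm
  have hs2 : y ^ (m + 1) * s = y ^ m := by
    calc y ^ (m + 1) * s = (y ^ (n + 1) * s) * y := by rw [hm]; ring
      _ = y ^ n * y := by rw [hs1]
      _ = y ^ m := by rw [hm]; ring
  have hs3 : ∀ j : ℕ, y ^ (m + j) * s ^ j = y ^ m := by
    intro j
    induction j with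
    | zero => simp
    | succ j ih =>
      calc y ^ (m + (j + 1)) * s ^ (j + 1) = (y ^ (m + 1) * s) * (y ^ j * s ^ j) := by ring
        _ = y ^ m * (y ^ j * s ^ j) := by rw [hs2]
        _ = y ^ (m + j) * s ^ j := by ring
        _ = y ^ m := ih
  set f : Z := y ^ m * s ^ m with hf
  have hff : f * f = f := by
    have := hs3 m
    calc f * f = (y ^ (m + m) * s ^ m) * s ^ m := by rw [hf]; ring
      _ = y ^ m * s ^ m := by rw [this]
  have hfe : f * e = f := by
    have h1 : y ^ m * e = y ^ m := by
      rw [hm, pow_succ, mul_assoc, hye]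
    calc f * e = (y ^ m * e) * s ^ m := by rw [hf]; ring
      _ = f := by rw [h1]
  rcases hp f hff with h | h
  · rw [hfe] at h
    refine ⟨m, ?_⟩
    calc y ^ m = y ^ (m + m) * s ^ m := (hs3 m).symm
      _ = y ^ m * f := by rw [hf]; ring
      _ = 0 := by rw [h, mul_zero]
  · exfalso
    rw [hfe] at h
    have hyv : y * v.1 = 0 := by
      have hev : e * v.1 = v.1 := by rw [mul_comm]; exact v.2
      rw [hy, sub_mul, mul_assoc, hev, smul_mul_assoc, hev, hv1, sub_self]
    apply hv0
    have hev : v.1 * e = v.1 := v.2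
    calc v.1 = v.1 * e := hev.symm
      _ = v.1 * f := by rw [h]
      _ = (y * v.1) * (y ^ n * s ^ m) := by rw [hf, hm, pow_succ]; ring
      _ = 0 := by rw [hyv, zero_mul]

/-- Products of primitive idempotents are primitive. -/
theorem prim_mul {k Z₁ Z₂ Z : Type*} [Field k] [IsAlgClosed k] [CommRing Z₁] [Algebra k Z₁]
    [Module.Finite k Z₁] [CommRing Z₂] [Algebra k Z₂] [Module.Finite k Z₂] [CommRing Z]
    [Algebra k Z] (j₁ : Z₁ →ₐ[k] Z) (j₂ : Z₂ →ₐ[k] Z)
    (hgen : ∀ P : Z → Prop, P 0 → (∀ a b, P a → P b → P (a + b)) →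
      (∀ (c : k) x y, P (c • (j₁ x * j₂ y))) → ∀ z, P z)
    (e : Z₁) (he : e * e = e) (he0 : e ≠ 0)
    (hep : ∀ f : Z₁, f * f = f → f * e = 0 ∨ f * e = e)
    (f : Z₂) (hf : f * f = f) (hf0 : f ≠ 0)
    (hfp : ∀ g : Z₂, g * g = g → g * f = 0 ∨ g * f = f)
    (hu0 : j₁ e * j₂ f ≠ 0) (g : Z) (hg : g * g = g) :
    g * (j₁ e * j₂ f) = 0 ∨ g * (j₁ e * j₂ f) = j₁ e * j₂ f := by
  set u : Z := j₁ e * j₂ f with hu
  have huu : u * u = u := by
    calc u * u = j₁ (e * e) * j₂ (f * f) := by rw [hu, map_mul, map_mul]; ring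
      _ = u := by rw [he, hf]
  have key : ∀ z : Z, ∃ γ : k, IsNilpotent (z * u - γ • u) := by
    apply hgen
    · exact ⟨0, by simp⟩
    · rintro a b ⟨γ, h1⟩ ⟨δ, h2⟩
      refine ⟨γ + δ, ?_⟩
      have : (a + b) * u - (γ + δ) • u = (a * u - γ • u) + (b * u - δ • u) := by
        rw [add_smul]; ring
      rw [this]
      exact Commute.isNilpotent_add (Commute.all _ _) h1 h2
    · intro t x y
      obtain ⟨c, hc⟩ := scalar_add_nilp (k := k) e he he0 hep x
      obtain ⟨d, hd⟩ := scalar_add_nilp (k := k) f hf hf0 hfp y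
      refine ⟨t * (c * d), ?_⟩
      have h1 : IsNilpotent (j₁ (x * e - c • e)) := hc.map j₁
      have h2 : IsNilpotent (j₂ (y * f - d • f)) := hd.map j₂
      have e1 : t • (j₁ x * j₂ y) * u - (t * (c * d)) • u =
          t • (j₁ (x * e - c • e) * j₂ (y * f)) + t • (c • j₁ e * j₂ (y * f - d • f)) := by
        rw [hu]
        simp only [map_sub, map_mul, Algebra.smul_def, AlgHom.commutes]
        ring
      rw [e1]
      apply Commute.isNilpotent_add (Commute.all _ _)
      · rw [Algebra.smul_def]
        exact Commute.isNilpotent_mul_left (Commute.all _ _)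
          (Commute.isNilpotent_mul_right (Commute.all _ _) h1)
      · rw [Algebra.smul_def]
        exact Commute.isNilpotent_mul_left (Commute.all _ _)
          (Commute.isNilpotent_mul_left (Commute.all _ _) h2)
  obtain ⟨γ, hγ⟩ := key g
  set h : Z := g * u with hh
  have hhh : h * h = h := by
    calc h * h = (g * g) * (u * u) := by rw [hh]; ring
      _ = h := by rw [hg, huu]
  have hhu : h * u = h := by rw [hh, mul_assoc, huu]
  have hsq : (γ * γ - γ) • u = (h - γ • u) * (1 - γ • u - h) := by
    have e1 : (h - γ • u) * (1 - γ • u - h) =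
        h - h * h - γ • u + (γ • u) * (γ • u) + (γ • (h * u) - γ • (h * u)) := by
      simp only [Algebra.smul_def]; ring
    rw [e1, hhh, sub_smul, mul_smul, smul_mul_smul_comm, huu, mul_smul]
    abel
  have hnil : IsNilpotent ((γ * γ - γ) • u) := by
    rw [hsq]
    exact Commute.isNilpotent_mul_right (Commute.all _ _) hγ
  by_cases hz : γ * γ - γ = 0
  · have hγ' : γ = 0 ∨ γ = 1 := by
      have : γ * (γ - 1) = 0 := by linear_combination hz
      rcases mul_eq_zero.mp this with h | h
      · exact Or.inl h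
      · exact Or.inr (sub_eq_zero.mp h)
    rcases hγ' with h0 | h1
    · left
      rw [h0, zero_smul, sub_zero] at hγ
      exact eq_zero_of_idem_of_nilp hhh hγ
    · right
      rw [h1, one_smul] at hγ
      have hi : (u - h) * (u - h) = u - h := by
        calc (u - h) * (u - h) = u * u - 2 * (h * u) + h * h := by ring
          _ = u - h := by rw [huu, hhu, hhh]; ring
      have hn : IsNilpotent (u - h) := by
        have := hγ.neg
        rwa [neg_sub] at this
      exact (sub_eq_zero.mp (eq_zero_of_idem_of_nilp hi hn)).symm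
  · exfalso
    apply hu0
    apply eq_zero_of_idem_of_nilp huu
    have e2 : u = (γ * γ - γ)⁻¹ • ((γ * γ - γ) • u) := by
      rw [smul_smul, inv_mul_cancel₀ hz, one_smul]
    rw [e2, Algebra.smul_def]
    exact Commute.isNilpotent_mul_left (Commute.all _ _) hnil

end Pool.Agent.TH613.KB
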