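import Pool.Agent.TH613.KB.Tensor
import Mathlib.Algebra.BigOperators.Finprod
import Mathlib.GroupTheory.Coset.Basic
import Mathlib.GroupTheory.Coset.Card

/-!
# Relative traces in group algebras of products
-/

set_option autoImplicit false

namespace Pool.Agent.TH613.KB

open MonoidAlgebra

variable {k G H : Type} [Field k] [Group G] [Group H]

/-- `e` lies in the image of the relative trace `(k[G])^D → k[G]^G`, `a ↦ ∑ g a g⁻¹`, the sum over
`g D ∈ G / D`. -/
def InTrace (e : MonoidAlgebra k G) (D : Subgroup G) : Prop :=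
  ∃ a : MonoidAlgebra k G,
    (∀ q ∈ D, MonoidAlgebra.of k G q * a = a * MonoidAlgebra.of k G q) ∧
    e = ∑ᶠ x : G ⧸ D, MonoidAlgebra.of k G (Quotient.out x) * a *
      MonoidAlgebra.of k G (Quotient.out x)⁻¹

theorem conj_eq {a : MonoidAlgebra k G} {D : Subgroup G}
    (ha : ∀ q ∈ D, MonoidAlgebra.of k G q * a = a * MonoidAlgebra.of k G q) {g h : G}
    (hgh : (QuotientGroup.mk g : G ⧸ D) = QuotientGroup.mk h) :
    MonoidAlgebra.of k G g * a * MonoidAlgebra.of k G g⁻¹ =
      MonoidAlgebra.of k G h * a * MonoidAlgebra.of k G h⁻¹ := by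
  rw [QuotientGroup.eq] at hgh
  obtain ⟨q, hq, rfl⟩ : ∃ q ∈ D, h = g * q := ⟨g⁻¹ * h, hgh, by simp⟩
  have h1 : MonoidAlgebra.of k G q * a * MonoidAlgebra.of k G q⁻¹ = a := by
    rw [ha q hq, mul_assoc, ← map_mul, mul_inv_cancel, map_one, mul_one]
  rw [mul_inv_rev, map_mul, map_mul]
  calc MonoidAlgebra.of k G g * a * MonoidAlgebra.of k G g⁻¹
      = MonoidAlgebra.of k G g *
          (MonoidAlgebra.of k G q * a * MonoidAlgebra.of k G q⁻¹) *
          MonoidAlgebra.of k G g⁻¹ := by rw [h1]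
    _ = MonoidAlgebra.of k G g * MonoidAlgebra.of k G q * a *
          (MonoidAlgebra.of k G q⁻¹ * MonoidAlgebra.of k G g⁻¹) := by simp only [mul_assoc]

theorem tm_of (g : G) (h : H) :
    tm (MonoidAlgebra.of k G g) (MonoidAlgebra.of k H h) = MonoidAlgebra.of k (G × H) (g, h) := by
  simp only [MonoidAlgebra.of_apply]
  rw [tm_single, mul_one]

/-- cosets of a product -/
theorem bij (D : Subgroup G) (E : Subgroup H) :
    Function.Bijective fun x : (G × H) ⧸ (D.prod E) =>
      ((QuotientGroup.mk (Quotient.out x).1 : G ⧸ D),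
        (QuotientGroup.mk (Quotient.out x).2 : H ⧸ E)) := by
  constructor
  · intro x y hxy
    simp only [Prod.mk.injEq] at hxy
    obtain ⟨h1, h2⟩ := hxy
    rw [QuotientGroup.eq] at h1 h2
    have h3 : (QuotientGroup.mk (Quotient.out x) : (G × H) ⧸ (D.prod E)) =
        QuotientGroup.mk (Quotient.out y) := by
      rw [QuotientGroup.eq]
      exact ⟨h1, h2⟩
    have ex : (QuotientGroup.mk (Quotient.out x) : (G × H) ⧸ (D.prod E)) = x := Quotient.out_eq x
    have ey : (QuotientGroup.mk (Quotient.out y) : (G × H) ⧸ (D.prod E)) = y := Quotient.out_eq y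
    rw [ex, ey] at h3
    exact h3
  · rintro ⟨x, y⟩
    refine ⟨QuotientGroup.mk (Quotient.out x, Quotient.out y), ?_⟩
    have h3 : (QuotientGroup.mk (Quotient.out
        (QuotientGroup.mk (Quotient.out x, Quotient.out y) : (G × H) ⧸ (D.prod E))) :
          (G × H) ⧸ (D.prod E)) = QuotientGroup.mk (Quotient.out x, Quotient.out y) :=
      Quotient.out_eq _
    rw [QuotientGroup.eq] at h3
    obtain ⟨h1, h2⟩ := h3
    simp only [Prod.mk.injEq]
    have ex : (QuotientGroup.mk (Quotient.out x) : G ⧸ D) = x := Quotient.out_eq x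
    have ey : (QuotientGroup.mk (Quotient.out y) : H ⧸ E) = y := Quotient.out_eq y
    constructor
    · rw [← ex, QuotientGroup.eq]
      rw [ex]
      exact h1
    · rw [← ey, QuotientGroup.eq]
      rw [ey]
      exact h2

theorem InTrace.tm [Finite G] [Finite H] {e : MonoidAlgebra k G} {f : MonoidAlgebra k H}
    {D : Subgroup G} {E : Subgroup H} (he : InTrace e D) (hf : InTrace f E) :
    InTrace (tm e f) (D.prod E) := by
  classical
  obtain ⟨a, ha, he⟩ := he
  obtain ⟨b, hb, hf⟩ := hf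
  refine ⟨KB.tm a b, ?_, ?_⟩
  · rintro ⟨q, r⟩ ⟨hq, hr⟩
    rw [← tm_of, tm_mul, tm_mul, ha q hq, hb r hr]
  · let _ := Fintype.ofFinite (G ⧸ D)
    let _ := Fintype.ofFinite (H ⧸ E)
    let _ := Fintype.ofFinite ((G × H) ⧸ (D.prod E))
    rw [he, hf, finsum_eq_sum_of_fintype, finsum_eq_sum_of_fintype, finsum_eq_sum_of_fintype]
    rw [tm_sum_left]
    simp only [tm_sum_right]
    rw [← Fintype.sum_prod_type']
    symm
    apply Fintype.sum_bijective _ (bij D E)
    intro x
    have e1 := conj_eq (k := k) ha (g := Quotient.out (QuotientGroup.mk (Quotient.out x).1 : G ⧸ D))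
      (h := (Quotient.out x).1) (Quotient.out_eq _)
    have e2 := conj_eq (k := k) hb (g := Quotient.out (QuotientGroup.mk (Quotient.out x).2 : H ⧸ E))
      (h := (Quotient.out x).2) (Quotient.out_eq _)
    simp only
    rw [e1, e2, ← tm_mul, ← tm_mul, tm_of, tm_of]
    rfl

end Pool.Agent.TH613.KB
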