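import Pool.Agent.TH613.KB.Alg
import Pool.Agent.TH613.KB.Trace
import Mathlib.Analysis.SpecialFunctions.Pow.Continuity
import Mathlib.Analysis.SpecificLimits.Basic
import Mathlib.Data.List.TFAE
import Mathlib.Tactic.TFAE

/-!
# Blocks of products of finite groups, and Brauer's `k(B)` conjecture up to small powers
-/

set_option autoImplicit false

namespace Pool.Agent.TH613.KB

open MonoidAlgebra

section Defs

variable {k G : Type} [Field k] [Group G]

/-- `e` is a block idempotent of `k[G]`: a primitive idempotent of the centre of `k[G]`. -/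
structure IsBlock (e : MonoidAlgebra k G) : Prop where
  idem : IsIdempotentElem e
  central : ∀ x : MonoidAlgebra k G, x * e = e * x
  ne_zero : e ≠ 0
  prim : ∀ f : MonoidAlgebra k G, IsIdempotentElem f →
    (∀ x : MonoidAlgebra k G, x * f = f * x) → f * e = 0 ∨ f * e = e

/-- `D` has the order of a defect group of the block with idempotent `e`: it is a subgroup of
smallest order with `e ∈ Tr_D^G((k[G])^D)`. -/
structure IsDefectGroup (e : MonoidAlgebra k G) (D : Subgroup G) : Prop where
  inTrace : InTrace e D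
  minimal : ∀ Q : Subgroup G, InTrace e Q → Nat.card D ≤ Nat.card Q

/-- `k(B) = dim Z(k[G]) e`, the number of ordinary irreducible characters in the block. -/
noncomputable def kB (e : MonoidAlgebra k G) : ℕ :=
  Module.finrank k (Submodule.map (LinearMap.mulRight k e)
    (Subalgebra.toSubmodule (Subalgebra.center k (MonoidAlgebra k G))))

end Defs

section Prod

variable {k G H : Type} [Field k] [Group G] [Group H]

theorem tm_ne_zero {x : MonoidAlgebra k G} {y : MonoidAlgebra k H} (hx : x ≠ 0) (hy : y ≠ 0) :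
    tm x y ≠ 0 := by
  obtain ⟨g, hg⟩ : ∃ g, x.coeff g ≠ 0 := by
    by_contra h
    push Not at h
    apply hx
    apply MonoidAlgebra.coeff_injective
    ext g
    simpa using h g
  obtain ⟨h, hh⟩ : ∃ h, y.coeff h ≠ 0 := by
    by_contra h
    push Not at h
    apply hy
    apply MonoidAlgebra.coeff_injective
    ext g
    simpa using h g
  intro h0
  have := tm_coeff x y g h
  rw [h0] at this
  simp only [coeff_zero, Finsupp.coe_zero, Pi.zero_apply] at this
  exact mul_ne_zero hg hh this.symm

/-- `Z(k[G]) → Z(k[G × H])` -/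
noncomputable def jl : Subalgebra.center k (MonoidAlgebra k G) →ₐ[k]
    Subalgebra.center k (MonoidAlgebra k (G × H)) :=
  ((il (k := k) (G := G) (H := H)).comp (Subalgebra.center k (MonoidAlgebra k G)).val).codRestrict
    (Subalgebra.center k (MonoidAlgebra k (G × H))) (by
      intro x
      rw [Subalgebra.mem_center_iff]
      intro w
      have hx := Subalgebra.mem_center_iff.mp x.2
      have h := tm_central (y := (1 : MonoidAlgebra k H)) hx (fun w => by simp) w
      simpa [tm] using h)

/-- `Z(k[H]) → Z(k[G × H])` -/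
noncomputable def jr : Subalgebra.center k (MonoidAlgebra k H) →ₐ[k]
    Subalgebra.center k (MonoidAlgebra k (G × H)) :=
  ((ir (k := k) (G := G) (H := H)).comp (Subalgebra.center k (MonoidAlgebra k H)).val).codRestrict
    (Subalgebra.center k (MonoidAlgebra k (G × H))) (by
      intro x
      rw [Subalgebra.mem_center_iff]
      intro w
      have hx := Subalgebra.mem_center_iff.mp x.2
      have h := tm_central (x := (1 : MonoidAlgebra k G)) (fun w => by simp) hx w
      simpa [tm] using h)

theorem jl_mul_jr (x : Subalgebra.center k (MonoidAlgebra k G))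
    (y : Subalgebra.center k (MonoidAlgebra k H)) :
    ((jl x * jr y : Subalgebra.center k (MonoidAlgebra k (G × H))) :
      MonoidAlgebra k (G × H)) = tm x.1 y.1 := rfl

theorem center_gen [Finite G] [Finite H]
    (P : Subalgebra.center k (MonoidAlgebra k (G × H)) → Prop) (h0 : P 0)
    (hadd : ∀ a b, P a → P b → P (a + b))
    (hmul : ∀ (c : k) (x : Subalgebra.center k (MonoidAlgebra k G))
      (y : Subalgebra.center k (MonoidAlgebra k H)), P (c • (jl x * jr y)))
    (z : Subalgebra.center k (MonoidAlgebra k (G × H))) : P z := by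
  classical
  let _ := Fintype.ofFinite (ConjClasses G)
  let _ := Fintype.ofFinite (ConjClasses H)
  have hz := central_eq_sum (Subalgebra.mem_center_iff.mp z.2)
  have e : z = ∑ C : ConjClasses G, ∑ D : ConjClasses H,
      (z.1.coeff (Quotient.out C, Quotient.out D)) •
        (jl ⟨cs k C, Subalgebra.mem_center_iff.mpr (cs_central C)⟩ *
          jr ⟨cs k D, Subalgebra.mem_center_iff.mpr (cs_central D)⟩ :
            Subalgebra.center k (MonoidAlgebra k (G × H))) := by
    apply Subtype.ext
    refine hz.trans ?_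
    simp only [AddSubmonoidClass.coe_finsetSum]
    rfl
  rw [e]
  apply Finset.sum_induction _ P hadd h0
  intro C _
  apply Finset.sum_induction _ P hadd h0
  intro D _
  exact hmul _ _ _

instance finiteCenter [Finite G] :
    Module.Finite k (Subalgebra.center k (MonoidAlgebra k G)) :=
  inferInstanceAs (Module.Finite k
    (Subalgebra.toSubmodule (Subalgebra.center k (MonoidAlgebra k G))))

theorem IsBlock.tm [IsAlgClosed k] [Finite G] [Finite H] {e : MonoidAlgebra k G}
    {f : MonoidAlgebra k H} (he : IsBlock e) (hf : IsBlock f) : IsBlock (tm e f) where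
  idem := by
    show KB.tm e f * KB.tm e f = KB.tm e f
    rw [tm_mul, he.idem, hf.idem]
  central := tm_central he.central hf.central
  ne_zero := tm_ne_zero he.ne_zero hf.ne_zero
  prim := by
    intro g hg hgc
    let e' : Subalgebra.center k (MonoidAlgebra k G) :=
      ⟨e, Subalgebra.mem_center_iff.mpr he.central⟩
    let f' : Subalgebra.center k (MonoidAlgebra k H) :=
      ⟨f, Subalgebra.mem_center_iff.mpr hf.central⟩
    let g' : Subalgebra.center k (MonoidAlgebra k (G × H)) :=
      ⟨g, Subalgebra.mem_center_iff.mpr hgc⟩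
    have hmain := prim_mul (k := k) (jl (k := k) (G := G) (H := H)) (jr (k := k) (G := G) (H := H))
      center_gen e' (Subtype.ext he.idem) (fun h => he.ne_zero (congrArg Subtype.val h))
      (by
        intro x hx
        have h1 := he.prim x.1 (congrArg Subtype.val hx) (Subalgebra.mem_center_iff.mp x.2)
        rcases h1 with h1 | h1
        · exact Or.inl (Subtype.ext h1)
        · exact Or.inr (Subtype.ext h1))
      f' (Subtype.ext hf.idem) (fun h => hf.ne_zero (congrArg Subtype.val h))
      (by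
        intro x hx
        have h1 := hf.prim x.1 (congrArg Subtype.val hx) (Subalgebra.mem_center_iff.mp x.2)
        rcases h1 with h1 | h1
        · exact Or.inl (Subtype.ext h1)
        · exact Or.inr (Subtype.ext h1))
      (by
        intro h
        exact tm_ne_zero he.ne_zero hf.ne_zero (congrArg Subtype.val h))
      g' (Subtype.ext hg)
    rcases hmain with h | h
    · exact Or.inl (congrArg Subtype.val h)
    · exact Or.inr (congrArg Subtype.val h)

theorem kB_tm [Finite G] [Finite H] (e : MonoidAlgebra k G) (f : MonoidAlgebra k H) :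
    kB e * kB f ≤ kB (tm e f) := by
  classical
  set P := Submodule.map (LinearMap.mulRight k e)
    (Subalgebra.toSubmodule (Subalgebra.center k (MonoidAlgebra k G))) with hP
  set Q := Submodule.map (LinearMap.mulRight k f)
    (Subalgebra.toSubmodule (Subalgebra.center k (MonoidAlgebra k H))) with hQ
  set R := Submodule.map (LinearMap.mulRight k (tm e f))
    (Subalgebra.toSubmodule (Subalgebra.center k (MonoidAlgebra k (G × H)))) with hR
  let x := Module.finBasis k P
  let y := Module.finBasis k Q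
  have hx : LinearIndependent k fun i => (x i : MonoidAlgebra k G) :=
    x.linearIndependent.map' P.subtype (Submodule.ker_subtype P)
  have hy : LinearIndependent k fun i => (y i : MonoidAlgebra k H) :=
    y.linearIndependent.map' Q.subtype (Submodule.ker_subtype Q)
  have hmem : ∀ p : Fin (Module.finrank k P) × Fin (Module.finrank k Q),
      tm (x p.1 : MonoidAlgebra k G) (y p.2 : MonoidAlgebra k H) ∈ R := by
    rintro ⟨i, j⟩
    obtain ⟨z, hz, hz'⟩ := (x i).2
    obtain ⟨w, hw, hw'⟩ := (y j).2
    refine ⟨tm z w, ?_, ?_⟩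
    · have h1 := Subalgebra.mem_center_iff.mp (show z ∈ Subalgebra.center k _ from hz)
      have h2 := Subalgebra.mem_center_iff.mp (show w ∈ Subalgebra.center k _ from hw)
      exact (Subalgebra.mem_center_iff (R := k)).mpr (tm_central h1 h2)
    · rw [LinearMap.mulRight_apply] at hz' hw' ⊢
      rw [tm_mul, hz', hw']
  have hli := linearIndependent_tm hx hy
  have hli' : LinearIndependent k fun p : Fin (Module.finrank k P) × Fin (Module.finrank k Q) =>
      (⟨tm (x p.1 : MonoidAlgebra k G) (y p.2 : MonoidAlgebra k H), hmem p⟩ : R) := by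
    apply LinearIndependent.of_comp R.subtype
    exact hli
  have := hli'.fintype_card_le_finrank
  simpa [kB] using this

end Prod

section Power

variable {k : Type} [Field k] [IsAlgClosed k]

omit [IsAlgClosed k] in
theorem exists_defect {G : Type} [Group G] [Finite G] {e : MonoidAlgebra k G} {D : Subgroup G}
    (h : InTrace e D) : ∃ Q : Subgroup G, IsDefectGroup e Q ∧ Nat.card Q ≤ Nat.card D := by
  obtain ⟨Q, hQ, hmin⟩ := WellFounded.has_min
    (measure fun Q : Subgroup G => Nat.card Q).wf {Q | InTrace e Q} ⟨D, h⟩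
  have hmin' : ∀ P : Subgroup G, InTrace e P → Nat.card Q ≤ Nat.card P := by
    intro P hP
    have := hmin P hP
    exact not_lt.mp this
  exact ⟨Q, ⟨hQ, hmin'⟩, hmin' D h⟩

theorem exists_power (𝒞 : ∀ (G : Type) [Group G], Prop)
    (h𝒞 : ∀ (G H : Type) [Group G] [Group H], 𝒞 G → 𝒞 H → 𝒞 (G × H))
    {G : Type} [Group G] [Finite G] (hG : 𝒞 G) {e : MonoidAlgebra k G} (he : IsBlock e)
    {D : Subgroup G} (hD : InTrace e D) (n : ℕ) :
    ∃ (G' : Type) (_ : Group G') (_ : Finite G') (e' : MonoidAlgebra k G') (D' : Subgroup G'),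
      𝒞 G' ∧ IsBlock e' ∧ InTrace e' D' ∧ Nat.card D' = Nat.card D ^ (n + 1) ∧
        Nat.card G' = Nat.card G ^ (n + 1) ∧ kB e ^ (n + 1) ≤ kB e' := by
  induction n with
  | zero => exact ⟨G, inferInstance, inferInstance, e, D, hG, he, hD, by simp, by simp, by simp⟩
  | succ n ih =>
    obtain ⟨G', i1, i2, e', D', h1, h2, h3, h4, h5, h6⟩ := ih
    refine ⟨G' × G, inferInstance, inferInstance, tm e' e, D'.prod D, h𝒞 _ _ h1 hG,
      h2.tm he, h3.tm hD, ?_, ?_, ?_⟩
    · rw [Nat.card_congr (Subgroup.prodEquiv D' D).toEquiv, Nat.card_prod, h4, pow_succ (Nat.card D) (n + 1)]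
    · rw [Nat.card_prod, h5, pow_succ (Nat.card G) (n + 1)]
    · calc kB e ^ (n + 1 + 1) = kB e ^ (n + 1) * kB e := pow_succ _ _
        _ ≤ kB e' * kB e := Nat.mul_le_mul_right _ h6
        _ ≤ kB (tm e' e) := kB_tm _ _

theorem le_of_pow_le {x y C : ℝ} (hy : 0 < y) (h : ∀ n : ℕ, x ^ (n + 1) ≤ C * y ^ (n + 1)) :
    x ≤ y := by
  by_contra hlt
  push Not at hlt
  have hr : 1 < x / y := by rwa [one_lt_div hy]
  obtain ⟨n, hn⟩ := pow_unbounded_of_one_lt C hr
  have h1 : C < (x / y) ^ (n + 1) :=
    lt_of_lt_of_le hn (pow_le_pow_right₀ hr.le (Nat.le_succ n))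
  rw [div_pow, lt_div_iff₀ (by positivity)] at h1
  linarith [h n]

/-- Brauer's `k(B)` conjecture up to small powers. -/
theorem main (𝒞 : ∀ (G : Type) [Group G], Prop)
    (h𝒞 : ∀ (G H : Type) [Group G] [Group H], 𝒞 G → 𝒞 H → 𝒞 (G × H)) :
    List.TFAE [
      ∀ (G : Type) [Group G] [Finite G], 𝒞 G → ∀ (e : MonoidAlgebra k G) (D : Subgroup G),
        IsBlock e → IsDefectGroup e D → kB e ≤ Nat.card D,
      ∀ ε : ℝ, 0 < ε → ∃ C : ℝ, ∀ (G : Type) [Group G] [Finite G], 𝒞 G →
        ∀ (e : MonoidAlgebra k G) (D : Subgroup G), IsBlock e → IsDefectGroup e D →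
          (kB e : ℝ) ≤ C * (Nat.card D : ℝ) ^ (1 + ε),
      ∀ ε : ℝ, 0 < ε → ∃ C : ℝ, ∀ (G : Type) [Group G] [Finite G], 𝒞 G →
        ∀ (e : MonoidAlgebra k G) (D : Subgroup G), IsBlock e → IsDefectGroup e D →
          (kB e : ℝ) ≤ C * (Nat.card G : ℝ) ^ ε * (Nat.card D : ℝ)] := by
  tfae_have 1 → 2 := by
    intro h ε hε
    refine ⟨1, fun G _ _ hG e D he hD => ?_⟩
    have h1 : (kB e : ℝ) ≤ (Nat.card D : ℝ) := by exact_mod_cast h G hG e D he hD
    have h2 : (1 : ℝ) ≤ (Nat.card D : ℝ) := by exact_mod_cast Nat.card_pos (α := D)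
    have h3 : (Nat.card D : ℝ) ≤ (Nat.card D : ℝ) ^ (1 + ε) := by
      conv_lhs => rw [← Real.rpow_one (Nat.card D : ℝ)]
      exact Real.rpow_le_rpow_of_exponent_le h2 (by linarith)
    linarith
  tfae_have 2 → 3 := by
    intro h ε hε
    obtain ⟨C, hC⟩ := h ε hε
    refine ⟨|C|, fun G _ _ hG e D he hD => (hC G hG e D he hD).trans ?_⟩
    have h1 : (0 : ℝ) < (Nat.card D : ℝ) := by exact_mod_cast Nat.card_pos (α := D)
    have h2 : (Nat.card D : ℝ) ≤ (Nat.card G : ℝ) := by
      exact_mod_cast Nat.card_le_card_of_injective _ D.subtype_injective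
    have h3 : (Nat.card D : ℝ) ^ ε ≤ (Nat.card G : ℝ) ^ ε :=
      Real.rpow_le_rpow h1.le h2 hε.le
    calc C * (Nat.card D : ℝ) ^ (1 + ε) ≤ |C| * (Nat.card D : ℝ) ^ (1 + ε) :=
          mul_le_mul_of_nonneg_right (le_abs_self C) (by positivity)
      _ = |C| * (Nat.card D : ℝ) ^ ε * (Nat.card D : ℝ) := by
          rw [Real.rpow_add h1, Real.rpow_one]; ring
      _ ≤ |C| * (Nat.card G : ℝ) ^ ε * (Nat.card D : ℝ) := by
          apply mul_le_mul_of_nonneg_right _ h1.le
          exact mul_le_mul_of_nonneg_left h3 (abs_nonneg C)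
  tfae_have 3 → 1 := by
    intro h G _ _ hG e D he hD
    have hDpos : (0 : ℝ) < (Nat.card D : ℝ) := by exact_mod_cast Nat.card_pos (α := D)
    have hGpos : (0 : ℝ) < (Nat.card G : ℝ) := by exact_mod_cast Nat.card_pos (α := G)
    have key : ∀ ε : ℝ, 0 < ε → (kB e : ℝ) ≤ (Nat.card G : ℝ) ^ ε * (Nat.card D : ℝ) := by
      intro ε hε
      obtain ⟨C, hC⟩ := h ε hε
      apply le_of_pow_le (C := |C|) (by positivity)
      intro n
      obtain ⟨G', i1, i2, e', D', h1, h2, h3, h4, h5, h6⟩ :=
        exists_power 𝒞 h𝒞 hG he hD.inTrace n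
      obtain ⟨Q, hQ, hQD⟩ := exists_defect h3
      have h7 := hC G' h1 e' Q h2 hQ
      have h8 : (kB e : ℝ) ^ (n + 1) ≤ (kB e' : ℝ) := by exact_mod_cast h6
      have h9 : (Nat.card Q : ℝ) ≤ (Nat.card D : ℝ) ^ (n + 1) := by
        rw [h4] at hQD; exact_mod_cast hQD
      have h10 : (Nat.card G' : ℝ) ^ ε = ((Nat.card G : ℝ) ^ ε) ^ (n + 1) := by
        rw [h5]
        push_cast
        rw [← Real.rpow_natCast, ← Real.rpow_mul hGpos.le, mul_comm, Real.rpow_mul hGpos.le,
          Real.rpow_natCast]
      calc (kB e : ℝ) ^ (n + 1) ≤ (kB e' : ℝ) := h8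
        _ ≤ C * (Nat.card G' : ℝ) ^ ε * (Nat.card Q : ℝ) := h7
        _ ≤ |C| * (Nat.card G' : ℝ) ^ ε * (Nat.card D : ℝ) ^ (n + 1) := by
            apply mul_le_mul _ h9 (by positivity) (by positivity)
            exact mul_le_mul_of_nonneg_right (le_abs_self C) (by positivity)
        _ = |C| * ((Nat.card G : ℝ) ^ ε * (Nat.card D : ℝ)) ^ (n + 1) := by
            rw [h10, mul_pow]; ring
    have hlim : Filter.Tendsto (fun ε : ℝ => (Nat.card G : ℝ) ^ ε * (Nat.card D : ℝ))
        (nhdsWithin 0 (Set.Ioi 0)) (nhds ((Nat.card G : ℝ) ^ (0 : ℝ) * (Nat.card D : ℝ))) := by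
      apply Filter.Tendsto.mul_const
      exact ((Real.continuous_const_rpow hGpos.ne').tendsto 0).mono_left nhdsWithin_le_nhds
    rw [Real.rpow_zero, one_mul] at hlim
    have hfin : (kB e : ℝ) ≤ (Nat.card D : ℝ) := by
      refine ge_of_tendsto hlim ?_
      filter_upwards [self_mem_nhdsWithin] with ε hε
      exact key ε hε
    exact_mod_cast hfin
  tfae_finish

end Power

end Pool.Agent.TH613.KB
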