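import Mathlib.Algebra.MonoidAlgebra.Basic
import Mathlib.Algebra.Group.ConjFinite
import Mathlib.Algebra.Algebra.Subalgebra.Basic
import Mathlib.LinearAlgebra.FiniteDimensional.Basic
import Mathlib.LinearAlgebra.FreeModule.Finite.Basic
import Mathlib.Tactic.Abel

/-!
# Group algebras of products
-/

set_option autoImplicit false

namespace Pool.Agent.TH613.KB

open MonoidAlgebra

variable {k G H : Type} [Field k] [Group G] [Group H]

/-- `k[G] → k[G × H]` -/
noncomputable def il : MonoidAlgebra k G →ₐ[k] MonoidAlgebra k (G × H) :=
  MonoidAlgebra.mapDomainAlgHom k k (MonoidHom.inl G H)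

/-- `k[H] → k[G × H]` -/
noncomputable def ir : MonoidAlgebra k H →ₐ[k] MonoidAlgebra k (G × H) :=
  MonoidAlgebra.mapDomainAlgHom k k (MonoidHom.inr G H)

/-- the outer tensor product of elements of `k[G]` and `k[H]` in `k[G × H]` -/
noncomputable def tm (x : MonoidAlgebra k G) (y : MonoidAlgebra k H) : MonoidAlgebra k (G × H) :=
  il x * ir y

@[simp] theorem il_single (g : G) (r : k) :
    (il (single g r) : MonoidAlgebra k (G × H)) = single (g, 1) r := by
  simp [il]

@[simp] theorem ir_single (h : H) (r : k) :
    (ir (single h r) : MonoidAlgebra k (G × H)) = single (1, h) r := by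
  simp [ir]

theorem tm_single (g : G) (h : H) (r s : k) :
    tm (single g r) (single h s) = single (g, h) (r * s) := by
  simp [tm, single_mul_single]

theorem tm_add_left (x x' : MonoidAlgebra k G) (y : MonoidAlgebra k H) :
    tm (x + x') y = tm x y + tm x' y := by
  simp [tm, add_mul]

theorem tm_add_right (x : MonoidAlgebra k G) (y y' : MonoidAlgebra k H) :
    tm x (y + y') = tm x y + tm x y' := by
  simp [tm, mul_add]

theorem tm_zero_left (y : MonoidAlgebra k H) : tm (0 : MonoidAlgebra k G) y = 0 := by simp [tm]

theorem tm_zero_right (x : MonoidAlgebra k G) : tm x (0 : MonoidAlgebra k H) = 0 := by simp [tm]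

theorem tm_sum_left {ι : Type*} (s : Finset ι) (f : ι → MonoidAlgebra k G)
    (y : MonoidAlgebra k H) : tm (∑ i ∈ s, f i) y = ∑ i ∈ s, tm (f i) y := by
  simp [tm, Finset.sum_mul]

theorem tm_sum_right {ι : Type*} (s : Finset ι) (x : MonoidAlgebra k G)
    (f : ι → MonoidAlgebra k H) : tm x (∑ i ∈ s, f i) = ∑ i ∈ s, tm x (f i) := by
  simp [tm, Finset.mul_sum]

theorem tm_coeff (x : MonoidAlgebra k G) (y : MonoidAlgebra k H) (g : G) (h : H) :
    (tm x y).coeff (g, h) = x.coeff g * y.coeff h := by
  classical
  induction x using MonoidAlgebra.induction_linear with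
  | zero => simp [tm_zero_left]
  | add x x' hx hx' => simp [tm_add_left, hx, hx', add_mul]
  | single a r =>
    induction y using MonoidAlgebra.induction_linear with
    | zero => simp [tm_zero_right]
    | add y y' hy hy' => simp [tm_add_right, hy, hy', mul_add]
    | single b s =>
      simp only [tm_single, coeff_single, Finsupp.single_apply, Prod.mk.injEq]
      by_cases h1 : a = g <;> by_cases h2 : b = h <;> simp [h1, h2]

theorem comm_il_ir (x : MonoidAlgebra k G) (y : MonoidAlgebra k H) :
    (ir y : MonoidAlgebra k (G × H)) * il x = il x * ir y := by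
  induction x using MonoidAlgebra.induction_linear with
  | zero => simp
  | add x x' hx hx' => simp [mul_add, add_mul, hx, hx']
  | single a r =>
    induction y using MonoidAlgebra.induction_linear with
    | zero => simp
    | add y y' hy hy' => simp only [map_add, mul_add, add_mul, hy, hy']
    | single b s => simp [single_mul_single, mul_comm]

theorem tm_mul (x x' : MonoidAlgebra k G) (y y' : MonoidAlgebra k H) :
    tm x y * tm x' y' = tm (x * x') (y * y') := by
  unfold tm
  rw [map_mul, map_mul]
  calc il x * ir y * (il x' * ir y') = il x * (ir y * il x') * ir y' := by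
        simp only [mul_assoc]
    _ = il x * (il x' * ir y) * ir y' := by rw [comm_il_ir]
    _ = il x * il x' * (ir y * ir y') := by simp only [mul_assoc]

theorem tm_smul_left (c : k) (x : MonoidAlgebra k G) (y : MonoidAlgebra k H) :
    tm (c • x) y = c • tm x y := by
  simp [tm]

theorem tm_smul_right (c : k) (x : MonoidAlgebra k G) (y : MonoidAlgebra k H) :
    tm x (c • y) = c • tm x y := by
  simp [tm]

omit [Group G] [Group H] in
theorem ext_prod {z w : MonoidAlgebra k (G × H)}
    (h : ∀ a b, z.coeff (a, b) = w.coeff (a, b)) : z = w := by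
  apply MonoidAlgebra.coeff_injective
  ext ⟨a, b⟩
  exact h a b

/-- an element is central if it commutes with all group elements -/
theorem central_of {x : MonoidAlgebra k G}
    (h : ∀ g : G, single g (1 : k) * x = x * single g 1) (y : MonoidAlgebra k G) :
    y * x = x * y := by
  induction y using MonoidAlgebra.induction_linear with
  | zero => simp
  | add y y' hy hy' => simp [mul_add, add_mul, hy, hy']
  | single a r =>
    have e : (single a r : MonoidAlgebra k G) = r • single a 1 := by
      rw [smul_single', mul_one]
    rw [e, smul_mul_assoc, mul_smul_comm, h a]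

theorem tm_central {x : MonoidAlgebra k G} {y : MonoidAlgebra k H}
    (hx : ∀ w, w * x = x * w) (hy : ∀ w, w * y = y * w) (w : MonoidAlgebra k (G × H)) :
    w * tm x y = tm x y * w := by
  apply central_of
  rintro ⟨g, h⟩
  have e : (single (g, h) (1 : k) : MonoidAlgebra k (G × H)) = tm (single g 1) (single h 1) := by
    rw [tm_single, mul_one]
  rw [e, tm_mul, tm_mul, hx, hy]

variable (k) in
/-- class sums -/
noncomputable def cs [Finite G] (C : ConjClasses G) : MonoidAlgebra k G :=
  open Classical in
  .ofCoeff (Finsupp.equivFunOnFinite.symm fun g => if ConjClasses.mk g = C then 1 else 0)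

theorem cs_coeff [Finite G] (C : ConjClasses G) (g : G) :
    (cs k C).coeff g = open Classical in if ConjClasses.mk g = C then (1 : k) else 0 := rfl

theorem cs_central [Finite G] (C : ConjClasses G) (w : MonoidAlgebra k G) :
    w * cs k C = cs k C * w := by
  apply central_of
  intro g
  apply MonoidAlgebra.coeff_injective
  ext h
  rw [coeff_single_mul_apply, coeff_mul_single_apply, one_mul, mul_one, cs_coeff, cs_coeff]
  have e : (ConjClasses.mk (g⁻¹ * h) : ConjClasses G) = ConjClasses.mk (h * g⁻¹) := by
    rw [ConjClasses.mk_eq_mk_iff_isConj, isConj_iff]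
    exact ⟨g, by simp⟩
  by_cases hC : ConjClasses.mk (g⁻¹ * h) = C
  · rw [if_pos hC, if_pos (e.symm.trans hC)]
  · rw [if_neg hC, if_neg (fun h' => hC (e.trans h'))]

theorem coeff_conj {z : MonoidAlgebra k G} (hz : ∀ w, w * z = z * w) {g h : G}
    (hgh : IsConj g h) : z.coeff g = z.coeff h := by
  rw [isConj_iff] at hgh
  obtain ⟨c, rfl⟩ := hgh
  have h1 := congrArg (fun x => MonoidAlgebra.coeff x (c * g)) (hz (single c 1))
  simp only [coeff_single_mul_apply, coeff_mul_single_apply, one_mul, mul_one] at h1
  simpa using h1

/-- a central element of `k[G × H]` is a combination of products of class sums -/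
theorem central_eq_sum [Finite G] [Finite H] {z : MonoidAlgebra k (G × H)}
    (hz : ∀ w, w * z = z * w) :
    z = open Classical in letI := Fintype.ofFinite (ConjClasses G)
        letI := Fintype.ofFinite (ConjClasses H)
        ∑ C : ConjClasses G, ∑ D : ConjClasses H,
          (z.coeff (Quotient.out C, Quotient.out D)) • tm (cs k C) (cs k D) := by
  classical
  let _ := Fintype.ofFinite (ConjClasses G)
  let _ := Fintype.ofFinite (ConjClasses H)
  apply ext_prod
  intro a b
  simp only [coeff_sum, Finsupp.finsetSum_apply, coeff_smul_apply, tm_coeff, cs_coeff]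
  rw [Finset.sum_eq_single (ConjClasses.mk a), Finset.sum_eq_single (ConjClasses.mk b)]
  · simp only [if_true, mul_one, smul_eq_mul]
    apply coeff_conj hz
    rw [isConj_iff]
    have ha : IsConj a (Quotient.out (ConjClasses.mk a)) := by
      rw [← ConjClasses.mk_eq_mk_iff_isConj]
      exact (Quotient.out_eq (ConjClasses.mk a)).symm
    have hb : IsConj b (Quotient.out (ConjClasses.mk b)) := by
      rw [← ConjClasses.mk_eq_mk_iff_isConj]
      exact (Quotient.out_eq (ConjClasses.mk b)).symm
    obtain ⟨c, hc⟩ := isConj_iff.mp ha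
    obtain ⟨d, hd⟩ := isConj_iff.mp hb
    exact ⟨(c, d), by ext <;> simp [hc, hd]⟩
  · intro D _ hD
    rw [if_neg (Ne.symm hD)]; simp
  · intro h; exact absurd (Finset.mem_univ _) h
  · intro C _ hC
    apply Finset.sum_eq_zero
    intro D _
    rw [if_neg (Ne.symm hC)]; simp
  · intro h; exact absurd (Finset.mem_univ _) h

instance finiteMA [Finite G] : Module.Finite k (MonoidAlgebra k G) := by
  have e : (G →₀ k) ≃ₗ[k] MonoidAlgebra k G :=
    { toFun := MonoidAlgebra.ofCoeff
      invFun := MonoidAlgebra.coeff
      left_inv := fun _ => rfl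
      right_inv := fun _ => rfl
      map_add' := fun _ _ => rfl
      map_smul' := fun _ _ => rfl }
  exact Module.Finite.equiv e

/-- products of linearly independent families -/
theorem linearIndependent_tm {ι κ : Type} [Finite ι] [Finite κ] {x : ι → MonoidAlgebra k G}
    {y : κ → MonoidAlgebra k H} (hx : LinearIndependent k x) (hy : LinearIndependent k y) :
    LinearIndependent k fun p : ι × κ => tm (x p.1) (y p.2) := by
  classical
  let _ := Fintype.ofFinite ι
  let _ := Fintype.ofFinite κ
  rw [Fintype.linearIndependent_iff] at hx hy ⊢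
  intro a ha
  have h1 : ∀ (h : H) (i : ι), ∑ j, a (i, j) * (y j).coeff h = 0 := by
    intro h
    apply hx
    apply MonoidAlgebra.coeff_injective
    ext g
    have h2 := congrArg (fun z => MonoidAlgebra.coeff z (g, h)) ha
    simp only [coeff_sum, Finsupp.finsetSum_apply, coeff_smul_apply, tm_coeff, coeff_zero,
      Finsupp.coe_zero, Pi.zero_apply, smul_eq_mul, Fintype.sum_prod_type] at h2 ⊢
    rw [← h2]
    refine Finset.sum_congr rfl fun i _ => ?_
    rw [Finset.sum_mul]
    refine Finset.sum_congr rfl fun j _ => ?_
    ring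
  rintro ⟨i, j⟩
  refine hy (fun j => a (i, j)) ?_ j
  apply MonoidAlgebra.coeff_injective
  ext h
  have := h1 h i
  simpa [coeff_sum, Finsupp.finsetSum_apply] using this

end Pool.Agent.TH613.KB
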